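import Pool.Agent.Lib.MP_7946c7_pr.T.T01
import Pool.Agent.Lib.MP_7946c7_pr.T.T02

/-!
# Self-avoiding walks in graphs and trees (shared tools)
-/

open Finset

namespace RST

variable {V : Type} [Fintype V] [DecidableEq V]

/-- Every path of a tree is at most as long as the diameter. -/
theorem saw_le_diam (T : SimpleGraph V) (hT : T.IsTree) (γ : ℕ → V) (ℓ : ℕ)
    (h : IsSAW T.Adj γ ℓ) : ℓ ≤ T.diam :=
  RST.T.saw_le_diam T hT γ ℓ h

/-- There is a path whose length is the diameter. -/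
theorem exists_saw_diam (T : SimpleGraph V) (hT : T.IsTree) :
    ∃ γ : ℕ → V, IsSAW T.Adj γ T.diam :=
  RST.T.exists_saw_diam T hT

/-- In a tree two paths with the same endpoints are equal. -/
theorem saw_unique (T : SimpleGraph V) (hT : T.IsTree) (γ γ' : ℕ → V) (ℓ ℓ' : ℕ)
    (h : IsSAW T.Adj γ ℓ) (h' : IsSAW T.Adj γ' ℓ') (h0 : γ 0 = γ' 0) (h1 : γ ℓ = γ' ℓ') :
    ℓ = ℓ' ∧ ∀ i ≤ ℓ, γ i = γ' i :=
  RST.T.saw_unique T hT γ γ' ℓ ℓ' h h' h0 h1

/-- In a tree there is a path between any two vertices. -/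
theorem saw_exists (T : SimpleGraph V) (hT : T.IsTree) (u v : V) :
    ∃ (γ : ℕ → V) (ℓ : ℕ), IsSAW T.Adj γ ℓ ∧ γ 0 = u ∧ γ ℓ = v :=
  RST.T.saw_exists T hT u v

/-- Reachability gives a self-avoiding walk. -/
theorem rch_saw (R : V → V → Prop) (W : Finset V) (u v : V) (hu : u ∈ W) (h : Rch R W u v) :
    ∃ (γ : ℕ → V) (ℓ : ℕ), γ 0 = u ∧ γ ℓ = v ∧ IsSAW R γ ℓ ∧ ∀ i ≤ ℓ, γ i ∈ W :=
  RST.T.rch_saw R W u v hu h

/-- A walk gives reachability. -/
theorem rch_of_walk (R : V → V → Prop) (W : Finset V) (γ : ℕ → V) (ℓ : ℕ)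
    (h : ∀ i < ℓ, R (γ i) (γ (i + 1))) (hW : ∀ i ≤ ℓ, γ i ∈ W) : Rch R W (γ 0) (γ ℓ) :=
  RST.T.rch_of_walk R W γ ℓ h hW

/-- Components of a symmetric relation. -/
theorem cmp_eq_of_mem (R : V → V → Prop) (hR : ∀ u v, R u v → R v u) (W : Finset V) (u v : V)
    (h : v ∈ cmp R W u) : cmp R W v = cmp R W u :=
  RST.T.cmp_eq_of_mem R hR W u v h

theorem mem_cmp_self (R : V → V → Prop) (W : Finset V) (u : V) (hu : u ∈ W) : u ∈ cmp R W u :=
  RST.T.mem_cmp_self R W u hu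

/-- Different components are disjoint. -/
theorem cmp_disjoint (R : V → V → Prop) (hR : ∀ u v, R u v → R v u) (W : Finset V) (u v : V)
    (h : cmp R W u ≠ cmp R W v) : Disjoint (cmp R W u) (cmp R W v) :=
  RST.T.cmp_disjoint R hR W u v h

/-- Components grow with the relation and with the vertex set. -/
theorem cmp_mono (R S : V → V → Prop) (hRS : ∀ u v, R u v → S u v) (W W' : Finset V)
    (hW : W ⊆ W') (u : V) : cmp R W u ⊆ cmp S W' u :=
  RST.T.cmp_mono R S hRS W W' hW u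

end RST
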