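import Mathlib

/-!
# Parameters of regime 2

Conductances `c(e) = exp (-(c₀/h) x(e))`, i.e. `β / n = c₀ / h`.
`Gm = G(-h)`, `GA = G(C1 log n h)`, `GW = G(LL h)`, scales `XS n h j` (the notes' `x_{j-1}`:
the base scale is `XS n h 0 = (log n)^{1/4} h`), `LL h = 1.1 XS n h J`, `J = JN c₀ n`.
The component size thresholds are `kh h` (macroscopic) and `kst δ n h` (giant).
-/

open Finset

namespace RST

/-- The absolute constant of D6. -/
noncomputable def C1 : ℝ := 2 * 10 ^ 11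

/-- Range of `h` in regime 2. -/
structure R2Par (δ : ℝ) (n : ℕ) (h : ℝ) : Prop where
  lo : (n : ℝ) ^ (-(1 / 3 : ℝ) + δ) ≤ h
  hi : h ≤ (n : ℝ) ^ (-δ)

/-- The scales. -/
noncomputable def XS (n : ℕ) (h : ℝ) (j : ℕ) : ℝ := (21 / 20) ^ j * ((Real.log n) ^ (1 / 4 : ℝ) * h)

/-- Index of the last scale of P1: `XS n h J ≥ (150 / c₀) log n h`. -/
noncomputable def JN (c₀ : ℝ) (n : ℕ) : ℕ :=
  ⌈Real.log (150 / c₀ * (Real.log n) ^ (3 / 4 : ℝ)) / Real.log (21 / 20)⌉₊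

/-- `L`, so that `L h = 1.1 XS n h J`. -/
noncomputable def LL (c₀ : ℝ) (n : ℕ) : ℝ :=
  11 / 10 * ((21 / 20) ^ JN c₀ n * (Real.log n) ^ (1 / 4 : ℝ))

/-- Size threshold of the giants. -/
noncomputable def kst (δ : ℝ) (n : ℕ) (h : ℝ) : ℕ := ⌈(n : ℝ) ^ (δ / 2) / h ^ 2⌉₊

/-- Bound for the length of the walks of `Gm`. -/
noncomputable def lmN (n : ℕ) (h : ℝ) : ℕ := ⌈3 * Real.log n / h⌉₊

/-- Length of the stretches of P1. -/
noncomputable def l1N (n : ℕ) (h : ℝ) : ℕ := ⌈8 * Real.log n / h⌉₊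

/-- Length of the short walks. -/
noncomputable def rN (θ : ℝ) (n : ℕ) (h : ℝ) : ℕ := ⌊(n : ℝ) ^ (-θ) / h⌋₊

/-- Number of window edges of the short walks. -/
noncomputable def k0N (θ : ℝ) : ℕ := ⌈3 / θ⌉₊ + 2

/-- Bound for the number of disjoint arms. -/
noncomputable def abN (θ : ℝ) (n : ℕ) : ℕ := ⌊(n : ℝ) ^ (2 * θ)⌋₊

/-- Bound for the number of edges in closed chains. -/
noncomputable def ebN (θ : ℝ) (n : ℕ) : ℕ := ⌊(n : ℝ) ^ θ⌋₊

end RST
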