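import Pool.Agent.Lib.MP_7946c7_pr.G.ArmC
import Pool.Agent.Lib.MP_7946c7_pr.G.BallB
import Pool.Agent.Lib.MP_7946c7_pr.G.GiaA
import Pool.Agent.Lib.MP_7946c7_pr.G.GiaB
import Pool.Agent.Lib.MP_7946c7_pr.G.IndB
import Pool.Agent.Lib.MP_7946c7_pr.G.MacB
import Pool.Agent.Lib.MP_7946c7_pr.G.Saw

/-!
# Stream G: random graph library. Interface (exact statements of the notes, section G).

Single graph lemmas are stated for a Bernoulli configuration `ξ : Sym2 V → Bool` (law `bern p`,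
graph `bg ξ`); `marginal` and `two_rounds` reduce configurations with several bins to this case.
The definitions are in G/Defs.lean, the proofs in the files G/*.lean.
-/

set_option linter.unusedVariables false
set_option linter.unusedSectionVars false
set_option linter.unnecessarySeqFocus false
set_option linter.unreachableTactic false
set_option linter.unusedTactic false

open Finset

namespace RST

/-! ## Independence, two rounds, exploration -/

section general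

variable {ι B : Type} [Fintype ι] [DecidableEq ι] [Fintype B] [DecidableEq B]

/-- Independence of functions of disjoint sets of coordinates. -/
theorem EE_indep {q : B → ℝ} (hq : IsLaw q) (s : Set ι) (F G : (ι → B) → ℝ)
    (hF : DependsOn F s) (hG : DependsOn G sᶜ) :
    EE q (fun b => F b * G b) = EE q F * EE q G := by
  apply RST.G.EE_indep <;> assumption

/-- Two rounds exposure: the pair (edges with bin in `A`, edges with bin in `A'`), `A ⊆ A'`. -/
theorem two_rounds {q : B → ℝ} (hq : IsLaw q) (A A' : Finset B) (hA : A ⊆ A') (h1 : qs q A < 1)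
    (F : (ι → Bool) → (ι → Bool) → ℝ) :
    EE q (fun b => F (fun e => decide (b e ∈ A)) (fun e => decide (b e ∈ A'))) =
      EE (bern (qs q A)) fun ξ : ι → Bool =>
        EE (bern ((qs q A' - qs q A) / (1 - qs q A))) fun ζ : ι → Bool =>
          F ξ (fun e => ξ e || ζ e) := by
  apply G.two_rounds <;> assumption

/-- Marginal of one set of bins. -/
theorem marginal {q : B → ℝ} (hq : IsLaw q) (A : Finset B) (F : (ι → Bool) → ℝ) :
    EE q (fun b => F (fun e => decide (b e ∈ A))) = EE (bern (qs q A)) F := by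
  apply G.marginal <;> assumption

end general

variable {V : Type} [Fintype V] [DecidableEq V]

/-- Structure of the event `expl R Q W = D`: it is an event on the edges inside `D` and the
absence of edges between `D` and `W \ D`. -/
theorem expl_eq_iff (R : V → V → Prop) (Q W D : Finset V) (hQW : Disjoint Q W) :
    expl R Q W = D ↔ Q ⊆ D ∧ D ⊆ Q ∪ W ∧ expl R Q (D \ Q) = D ∧ ∀ u ∈ D, ∀ w ∈ W \ D, ¬ R u w := by
  apply G.expl_eq_iff <;> assumption

theorem cmp_eq_expl (R : V → V → Prop) (W : Finset V) (v : V) (hv : v ∈ W) :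
    cmp R W v = expl R {v} (W.erase v) := by
  apply G.cmp_eq_expl <;> assumption

/-- One step of the exploration. -/
theorem expl_step (R : V → V → Prop) (hR : ∀ u v, R u v → R v u) (Q W : Finset V)
    (hQW : Disjoint Q W) (q : V) (hq : q ∈ Q) (N : Finset V)
    (hN : ∀ w, w ∈ N ↔ w ∈ W ∧ R q w) :
    expl R Q W = insert q (expl R (Q.erase q ∪ N) (W \ N)) := by
  apply G.expl_step <;> assumption

/-! ## Counting walks -/

open Classical in
/-- G9. First moment of self-avoiding walks with constraints on the bins. -/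
theorem saw_count {B : Type} [Fintype B] [DecidableEq B] {q : B → ℝ} (hq : IsLaw q) (ℓ : ℕ)
    (A : ℕ → Finset B) :
    EE q (fun b : Sym2 V → B => ∑ γ : Fin (ℓ + 1) → V,
      if Function.Injective γ ∧ ∀ i : Fin ℓ, b s(γ i.castSucc, γ i.succ) ∈ A i then (1 : ℝ) else 0) ≤
      Fintype.card V * ∏ i ∈ range ℓ, (Fintype.card V * qs q (A i)) := by
  apply G.saw_count <;> assumption

/-! ## Laplace transforms of the explored set (G3 - G6) -/

/-- G3. -/
theorem laplace_lower (p z y : ℝ) (hp0 : 0 ≤ p) (hp1 : p ≤ 1) (hz0 : 0 < z) (hz1 : z ≤ 1)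
    (hy0 : 0 < y) (hy1 : y ≤ 1) (Q W : Finset V) (hQW : Disjoint Q W)
    (h : y ≤ z * (1 - p + p * y) ^ W.card) :
    y ^ Q.card ≤ EE (bern p) fun ξ => z ^ (expl (bg ξ) Q W).card := by
  apply G.laplace_lower <;> assumption

/-- Tail at criticality (from G3). -/
theorem tail_crit (p : ℝ) (hp0 : 0 ≤ p) (hp1 : p ≤ 1 / 4) (W : Finset V) (hW : p * W.card ≤ 1)
    (v : V) (k : ℕ) (hk : 1 ≤ k) :
    PP (bern p) {ξ | k ≤ (cmp (bg ξ) W v).card} ≤ 4 / Real.sqrt k := by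
  apply G.tail_crit <;> assumption

/-- G4. -/
theorem laplace_upper (p z y : ℝ) (hp0 : 0 ≤ p) (hp1 : p ≤ 1) (hz1 : 1 ≤ z) (hy1 : 1 ≤ y)
    (Q W : Finset V) (hQW : Disjoint Q W) (h : z * (1 - p + p * y) ^ W.card ≤ y) :
    (EE (bern p) fun ξ => z ^ (expl (bg ξ) Q W).card) ≤ y ^ Q.card := by
  apply G.laplace_upper <;> assumption

/-- Subcritical exponential moment (from G4). -/
theorem subcrit_exp (p h d : ℝ) (hp0 : 0 ≤ p) (hp1 : p ≤ 1) (h0 : 0 < h) (h1 : h ≤ 1)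
    (hd0 : 0 ≤ d) (hd : d ≤ 2 * h) (W : Finset V) (hW : p * W.card ≤ 1 - h) (v : V) :
    (EE (bern p) fun ξ => Real.exp ((h * d - d ^ 2 / 2) * (cmp (bg ξ) W v).card)) ≤ 1 + d := by
  apply G.subcrit_exp <;> assumption

theorem subcrit_tail (p h : ℝ) (hp0 : 0 ≤ p) (hp1 : p ≤ 1) (h0 : 0 < h) (h1 : h ≤ 1)
    (W : Finset V) (hW : p * W.card ≤ 1 - h) (v : V) (k : ℝ) :
    PP (bern p) {ξ | k ≤ (cmp (bg ξ) W v).card} ≤ 2 * Real.exp (-(h ^ 2 * k / 2)) := by
  apply G.subcrit_tail <;> assumption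

/-- Expected component size in the subcritical regime. -/
theorem subcrit_mean (p h : ℝ) (hp0 : 0 ≤ p) (hp1 : p ≤ 1) (h0 : 0 < h) (h1 : h ≤ 1)
    (W : Finset V) (hW : p * W.card ≤ 1 - h) (v : V) :
    (EE (bern p) fun ξ => ((cmp (bg ξ) W v).card : ℝ)) ≤ 1 / h := by
  apply G.subcrit_mean <;> assumption

open Classical in
/-- G5. Laplace transform with a budget. -/
theorem laplace_budget (p z y : ℝ) (N t : ℕ) (hp0 : 0 ≤ p) (hp1 : p ≤ 1) (hz : 0 < z)
    (hy0 : 0 < y) (hy1 : y ≤ 1) (h : z * (1 - p + p * y) ^ N ≤ y)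
    (Q W : Finset V) (hQW : Disjoint Q W) (hc : N + t ≤ W.card + Q.card) :
    (EE (bern p) fun ξ => if (expl (bg ξ) Q W).card ≤ t then
      z ^ (expl (bg ξ) Q W).card else 0) ≤ y ^ Q.card := by
  apply G.laplace_budget <;> assumption

/-- G6. -/
theorem exact_size (p z : ℝ) (hp0 : 0 ≤ p) (hp1 : p ≤ 1) (hz : 0 < z) (Q W : Finset V)
    (hQW : Disjoint Q W) (t : ℕ) (ht : t ≤ W.card + Q.card) :
    PP (bern p) {ξ | (expl (bg ξ) Q W).card = t} * z ^ (W.card + Q.card - t) ≤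
      (1 + (z - 1) * (1 - p) ^ t) ^ W.card := by
  apply G.exact_size <;> assumption

/-- Consequence of G6. -/
theorem exact_size_gap (p g : ℝ) (hp0 : 0 ≤ p) (hp1 : p ≤ 1) (hg0 : 0 < g) (hg1 : g ≤ 1)
    (W : Finset V) (v : V) (hv : v ∈ W) (t : ℕ) (ht : 1 ≤ t)
    (h : (1 + g) * t ≤ (W.card - 1) * (1 - (1 - p) ^ t)) :
    PP (bern p) {ξ | (cmp (bg ξ) W v).card = t} ≤ Real.exp (-(t * g ^ 2 / 8)) := by
  apply G.exact_size_gap <;> assumption

/-! ## Balls and arms (G7, G8) -/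

/-- G7. Ball growth. -/
theorem ball_growth (p : ℝ) (hp0 : 0 ≤ p) (hp1 : p ≤ 1) (hW : p * Fintype.card V ≤ 1)
    (v : V) (r : ℕ) (hr : 1 ≤ r) (s : ℝ) :
    PP (bern p) {ξ | s ≤ (ball (bg ξ) v r).card} ≤ 2 * Real.exp (-(s / (32 * (r : ℝ) ^ 2))) := by
  apply G.ball_growth <;> assumption

/-- G8. One arm. -/
theorem one_arm (p x : ℝ) (hp0 : 0 ≤ p) (hx0 : 0 ≤ x) (hx1 : x ≤ 1 / 4)
    (hn : 16 ≤ Fintype.card V) (hp : p * Fintype.card V ≤ 1 + x) (W : Finset V) (v : V) (r : ℕ)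
    (hr : 1 ≤ r) :
    PP (bern p) {ξ | Arm (bg ξ) W v r} ≤ armB (Fintype.card V) x r := by
  apply G.one_arm <;> assumption

/-- G8. Disjoint arms from given vertices (BK). -/
theorem disj_arms (p x : ℝ) (hp0 : 0 ≤ p) (hx0 : 0 ≤ x) (hx1 : x ≤ 1 / 4)
    (hn : 16 ≤ Fintype.card V) (hp : p * Fintype.card V ≤ 1 + x) (W : Finset V) (ws : Finset V)
    (r : ℕ) (hr : 1 ≤ r) :
    PP (bern p) {ξ | DisjArms (bg ξ) W ws r} ≤ armB (Fintype.card V) x r ^ ws.card := by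
  apply G.disj_arms <;> assumption

/-- G8. Two arms from the same vertex, disjoint except for this vertex (BK). -/
theorem two_arms (p x : ℝ) (hp0 : 0 ≤ p) (hx0 : 0 ≤ x) (hx1 : x ≤ 1 / 4)
    (hn : 16 ≤ Fintype.card V) (hp : p * Fintype.card V ≤ 1 + x) (v : V)
    (r : ℕ) (hr : 1 ≤ r) :
    PP (bern p) {ξ | ∃ γ γ' : ℕ → V, γ 0 = v ∧ γ' 0 = v ∧ IsSAW (bg ξ) γ r ∧ IsSAW (bg ξ) γ' r ∧
      ∀ i ≤ r, ∀ j ≤ r, γ i = γ' j → i = 0 ∧ j = 0} ≤ armB (Fintype.card V) x r ^ 2 := by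
  apply G.two_arms <;> assumption

/-! ## Macroscopic components (G10) -/

/-- G10. -/
theorem macro_comps : ∃ C₀ : ℝ, ∀ (V : Type) [Fintype V] [DecidableEq V] (h : ℝ) (W : Finset V),
    0 < h → h ≤ 1 / 100 → C₀ ≤ h ^ 3 * Fintype.card V → h ≤ 1 →
    Fintype.card V * (1 - h / 40) ≤ W.card →
    PP (bern ((1 - h) / Fintype.card V)) {ξ : Sym2 V → Bool |
      ((bigs (bg ξ) W (kh h)).card : ℝ) ≤ h ^ 3 * Fintype.card V / 100} ≤
      Real.exp (-(h ^ 3 * Fintype.card V / 500)) := by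
  apply G.macro_comps <;> assumption

/-! ## Giants (G11) -/

theorem giant_exist (x : ℝ) (hx0 : 0 < x) (hx1 : x ≤ 1 / 10) (W : Finset V)
    (hW : Fintype.card V * (1 - x / 100) ≤ W.card) (k : ℕ) (hk : 1 ≤ k)
    (hk2 : (k : ℝ) ≤ x * Fintype.card V / 100) :
    PP (bern ((1 + x) / Fintype.card V)) {ξ | ∀ v ∈ W, (cmp (bg ξ) W v).card ≤ k} ≤
      Real.exp (-(19 / 1000 * x ^ 3 * Fintype.card V)) := by
  apply G.giant_exist <;> assumption

/-- General gap lemma. -/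
theorem giant_gap (p g M : ℝ) (hp0 : 0 ≤ p) (hp1 : p ≤ 1) (hg0 : 0 < g) (hg1 : g ≤ 1)
    (W : Finset V) (k : ℕ) (hk : 1 ≤ k)
    (h : ∀ t : ℕ, k ≤ t → (t : ℝ) ≤ M → (1 + g) * t ≤ (W.card - 1) * (1 - (1 - p) ^ t)) :
    PP (bern p) {ξ | ∃ v ∈ W, k ≤ (cmp (bg ξ) W v).card ∧ ((cmp (bg ξ) W v).card : ℝ) ≤ M} ≤
      (Fintype.card V : ℝ) ^ 2 * Real.exp (-(k * g ^ 2 / 8)) := by
  apply G.giant_gap <;> assumption

/-- The gap lemma for `x ≤ 1/4`. -/
theorem giant_gap_small (x : ℝ) (hx0 : 0 < x) (hx1 : x ≤ 1 / 4) (W : Finset V)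
    (hW : Fintype.card V * (1 - x / 100) ≤ W.card - 1) (hn : 8 ≤ Fintype.card V)
    (k : ℕ) (hk : 1 ≤ k) :
    PP (bern ((1 + x) / Fintype.card V)) {ξ | ∃ v ∈ W, k ≤ (cmp (bg ξ) W v).card ∧
      ((cmp (bg ξ) W v).card : ℝ) ≤ 6 / 5 * x * Fintype.card V} ≤
      (Fintype.card V : ℝ) ^ 2 * Real.exp (-(x ^ 2 * k / 4000)) := by
  apply G.giant_gap_small <;> assumption

/-- Uniqueness: after a component of size at least `s`, the rest is subcritical. -/
theorem giant_unique (p h : ℝ) (hp0 : 0 ≤ p) (hp1 : p ≤ 1) (h0 : 0 < h) (h1 : h ≤ 1)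
    (W : Finset V) (k s : ℕ) (hs : p * (W.card - s) ≤ 1 - h) (hks : k ≤ s) :
    PP (bern p) {ξ | ∃ u ∈ W, ∃ v ∈ W, cmp (bg ξ) W u ≠ cmp (bg ξ) W v ∧
      s ≤ (cmp (bg ξ) W u).card ∧ k ≤ (cmp (bg ξ) W v).card} ≤
      2 * (Fintype.card V : ℝ) ^ 2 * Real.exp (-(h ^ 2 * k / 2)) := by
  apply G.giant_unique <;> assumption

end RST
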