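import Pool.Agent.Lib.MP_7946c7_pr.Defs

/-!
# Definitions for regime 2: window graphs, closed chains, big edges

`Gm ≤ GA ≤ GW` are the graphs `G(-h) ≤ G(A h) ≤ G(L h)` of the notes.
-/

open Finset

namespace RST

open Classical in
/-- The set of the components of size at least `k`. -/
noncomputable def bigs {V : Type} (R : V → V → Prop) (W : Finset V) (k : ℕ) : Finset (Finset V) :=
  (W.image fun v => cmp R W v).filter fun D => k ≤ D.card

/-- The size threshold `⌈10⁻⁴ h⁻²⌉`. -/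
noncomputable def kh (h : ℝ) : ℕ := ⌈(1 / 10 ^ 4 : ℝ) / h ^ 2⌉₊

/-- Cyclic successor in `{0, …, l}`. -/
def nx (l i : ℕ) : ℕ := if i = l then 0 else i + 1

/-- A closed chain of `l + 1` distinct components of `Gm` and distinct window edges
`{a i, b (i+1)}` (cyclically), `a i, b i` in the `i`-th component. -/
structure IsClosedChain {V : Type} [Fintype V] (Gm GW : V → V → Prop) (l : ℕ) (a b : ℕ → V) :
    Prop where
  same : ∀ i ≤ l, b i ∈ cmp Gm univ (a i)
  distinct : ∀ i ≤ l, ∀ j ≤ l, i ≠ j → cmp Gm univ (a i) ≠ cmp Gm univ (a j)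
  window : ∀ i ≤ l, GW (a i) (b (nx l i)) ∧ ¬ Gm (a i) (b (nx l i))
  edges : ∀ i ≤ l, ∀ j ≤ l, i ≠ j → s(a i, b (nx l i)) ≠ s(a j, b (nx l j))

open Classical in
/-- Window edges in closed chains of at most `lm + 1` components. -/
noncomputable def Ecyc {V : Type} [Fintype V] (Gm GW : V → V → Prop) (lm : ℕ) : Finset (Sym2 V) :=
  univ.filter fun e => ∃ l ≤ lm, ∃ a b : ℕ → V, IsClosedChain Gm GW l a b ∧
    ∃ i ≤ l, e = s(a i, b (nx l i))

open Classical in
/-- Window edges with disjoint arms of length `r` from both endpoints. -/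
noncomputable def Ebig {V : Type} [Fintype V] (Gm GW : V → V → Prop) (r : ℕ) : Finset (Sym2 V) :=
  univ.filter fun e => ∃ a b, e = s(a, b) ∧ a ≠ b ∧ GW a b ∧ ¬ Gm a b ∧ DisjArms GW univ {a, b} r

open Classical in
/-- Pairs of edges leaving the same component of `Gm`, with disjoint arms of length `r` outside. -/
noncomputable def PPa {V : Type} [Fintype V] (Gm GW : V → V → Prop) (r : ℕ) :
    Finset (Sym2 V × Sym2 V) :=
  univ.filter fun p => ∃ a a' b b', p = (s(a, a'), s(b, b')) ∧ b ∈ cmp Gm univ a ∧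
    GW a a' ∧ GW b b' ∧ a' ∉ cmp Gm univ a ∧ b' ∉ cmp Gm univ a ∧ a' ≠ b' ∧
    DisjArms GW (univ \ cmp Gm univ a) {a', b'} r

open Classical in
/-- Pairs (representative of a macroscopic component, edge leaving it with an arm outside). -/
noncomputable def QQb {V : Type} [Fintype V] (Gm GW : V → V → Prop) (km r : ℕ)
    (rep : Finset V → V) : Finset (V × Sym2 V) :=
  univ.filter fun p => ∃ b b', p = (rep (cmp Gm univ b), s(b, b')) ∧
    km ≤ (cmp Gm univ b).card ∧ GW b b' ∧ b' ∉ cmp Gm univ b ∧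
    Arm GW (univ \ cmp Gm univ b) b' r

/-- `A`-good vertices. -/
def AGood {V : Type} [Fintype V] (Gm GA : V → V → Prop) (km : ℕ) (z : V) : Prop :=
  km ≤ (cmp Gm univ z).card ∨ ∃ u ∈ cmp Gm univ z, ∃ w, km ≤ (cmp Gm univ w).card ∧ GA u w

/-- Adjacency of components. -/
def cadj {V : Type} (GA : V → V → Prop) (Q Q' : Finset V) : Prop := ∃ u ∈ Q, ∃ w ∈ Q', GA u w

open Classical in
/-- The deterministic facts D1, D3, D4, D6, D7, D10 of the notes. -/
structure DFacts {V : Type} [Fintype V] (Gm GA GW : V → V → Prop)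
    (km lmax r' r'' k₀ lm ab eb : ℕ) : Prop where
  symm_m : ∀ u v, Gm u v → Gm v u
  symm_A : ∀ u v, GA u v → GA v u
  symm_L : ∀ u v, GW u v → GW v u
  irr : ∀ u, ¬ GW u u
  le_A : ∀ u v, Gm u v → GA u v
  le_L : ∀ u v, GA u v → GW u v
  d1 : ∀ (γ : ℕ → V) (ℓ : ℕ), IsSAW Gm γ ℓ → ℓ < lmax
  d3 : ∀ (γ : ℕ → V) (ℓ : ℕ), IsSAW GW γ ℓ → ℓ ≤ r' →
    ((range ℓ).filter fun i => ¬ Gm (γ i) (γ (i + 1))).card ≤ k₀
  d4 : ∀ (v : V) (ws : Finset V), (∀ w ∈ ws, w ∉ cmp Gm univ v ∧ ∃ u ∈ cmp Gm univ v, GW u w) →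
    DisjArms GW (univ \ cmp Gm univ v) ws r'' → ws.card ≤ ab
  d6 : ∀ X ⊆ bigs Gm univ km, 2 * X.card ≤ (bigs Gm univ km).card →
    X.card ≤ 2 * ((bigs Gm univ km \ X).filter fun Q => ∃ P ∈ X, cadj GA P Q).card
  d7 : (Ecyc Gm GW lm).card ≤ eb
  d10 : ∀ v, km ≤ (cmp Gm univ v).card → Arm Gm univ v r''

end RST
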