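import Mathlib

/-!
# Common definitions for MP_7946c7_pr (random spanning tree in random environment)

All the files of this library live in the namespace `RST`. Everything is classical.
-/

open Finset

namespace RST

/-! ## Self-avoiding walks, reachability, components -/

/-- `γ 0, …, γ ℓ` is a self-avoiding walk of length `ℓ` for the relation `R`. -/
def IsSAW {V : Type*} (R : V → V → Prop) (γ : ℕ → V) (ℓ : ℕ) : Prop :=
  (∀ i < ℓ, R (γ i) (γ (i + 1))) ∧ ∀ i ≤ ℓ, ∀ j ≤ ℓ, γ i = γ j → i = j

/-- `v` is reachable from `u` by steps of `R` inside `W` (reflexive). -/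
def Rch {V : Type*} (R : V → V → Prop) (W : Finset V) (u v : V) : Prop :=
  Relation.ReflTransGen (fun x y => R x y ∧ x ∈ W ∧ y ∈ W) u v

open Classical in
/-- The component of `v` in the graph `R` restricted to `W` (empty if `v ∉ W`). -/
noncomputable def cmp {V : Type*} (R : V → V → Prop) (W : Finset V) (v : V) : Finset V :=
  W.filter fun w => v ∈ W ∧ Rch R W v w

open Classical in
/-- `C(Q;W)`: the set `Q` and the vertices of `W` reached from `Q` by a path whose vertices, except
the first one, are in `W`. -/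
noncomputable def expl {V : Type*} (R : V → V → Prop) (Q W : Finset V) : Finset V :=
  Q ∪ W.filter fun w => ∃ q ∈ Q, ∃ u ∈ W, R q u ∧ Rch R W u w

/-- There is a self-avoiding walk of length `r` in `W` starting at `v`. -/
def Arm {V : Type*} (R : V → V → Prop) (W : Finset V) (v : V) (r : ℕ) : Prop :=
  ∃ γ : ℕ → V, γ 0 = v ∧ IsSAW R γ r ∧ ∀ i ≤ r, γ i ∈ W

/-- Disjoint arms of length `r` in `W` from all the vertices of `ws`. -/
def DisjArms {V : Type*} (R : V → V → Prop) (W : Finset V) (ws : Finset V) (r : ℕ) : Prop :=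
  ∃ γ : V → ℕ → V, (∀ w ∈ ws, γ w 0 = w ∧ IsSAW R (γ w) r ∧ ∀ i ≤ r, γ w i ∈ W) ∧
    ∀ w ∈ ws, ∀ w' ∈ ws, w ≠ w' → ∀ i ≤ r, ∀ j ≤ r, γ w i ≠ γ w' j

/-- The relation given by labels at most `x`. -/
def gr {V : Type*} (lab : Sym2 V → ℝ) (x : ℝ) (u v : V) : Prop := u ≠ v ∧ lab s(u, v) ≤ x

/-! ## Random spanning trees -/

open Classical in
/-- The weight of a graph. -/
noncomputable def wtT {V : Type*} [Fintype V] (c : Sym2 V → ℝ) (T : SimpleGraph V) : ℝ :=
  ∏ e : Sym2 V, if e ∈ T.edgeSet then c e else 1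

open Classical in
/-- The total weight of the spanning trees in `S`. -/
noncomputable def sumT {V : Type*} [Fintype V] (c : Sym2 V → ℝ) (S : Set (SimpleGraph V)) : ℝ :=
  ∑ T : SimpleGraph V, if T.IsTree ∧ T ∈ S then wtT c T else 0

/-- The law of the random spanning tree with conductances `c`. -/
noncomputable def PT {V : Type*} [Fintype V] (c : Sym2 V → ℝ) (S : Set (SimpleGraph V)) : ℝ :=
  sumT c S / sumT c Set.univ

/-- The square of the increment of `f` along an edge. -/
def sqd {V : Type*} (f : V → ℝ) : Sym2 V → ℝ :=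
  Sym2.lift ⟨fun x y => (f x - f y) ^ 2, fun x y => by ring⟩

/-- Dirichlet energy. -/
noncomputable def Dir {V : Type*} [Fintype V] (c : Sym2 V → ℝ) (f : V → ℝ) : ℝ :=
  ∑ e : Sym2 V, c e * sqd f e

/-! ## Random configurations -/

/-- Expectation of `F` when the values `b e` are independent with law `q`. -/
noncomputable def EE {ι B : Type*} [Fintype ι] [Fintype B] (q : B → ℝ) (F : (ι → B) → ℝ) : ℝ :=
  open Classical in ∑ b : ι → B, (∏ e, q (b e)) * F b

open Classical in
/-- Probability. -/
noncomputable def PP {ι B : Type*} [Fintype ι] [Fintype B] (q : B → ℝ) (S : Set (ι → B)) : ℝ :=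
  EE q fun b => if b ∈ S then 1 else 0

/-- `q` is a probability vector. -/
structure IsLaw {B : Type*} [Fintype B] (q : B → ℝ) : Prop where
  nonneg : ∀ x, 0 ≤ q x
  sum_one : ∑ x, q x = 1

/-- The probability of a set of bins. -/
def qs {B : Type*} (q : B → ℝ) (A : Finset B) : ℝ := ∑ x ∈ A, q x

/-- The graph of the edges with bin in `A`. -/
def adj {V B : Type*} (A : Finset B) (b : Sym2 V → B) (u v : V) : Prop := u ≠ v ∧ b s(u, v) ∈ A

end RST
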