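import Pool.Agent.Lib.MP_7946c7_pr.C.Cheeger
import Pool.Agent.Lib.MP_7946c7_pr.C.Indep

/-!
# Cheeger's inequality and independent sets (shared small tools)
-/

open Finset

namespace RST

open Classical in
/-- Cheeger's inequality for a finite graph with bounded degree. -/
theorem cheeger {V : Type} [Fintype V] (S : Finset V) (F : V → V → Prop)
    (hF : ∀ u v, F u v → F v u) (Δ : ℕ) (hΔ : ∀ u ∈ S, (S.filter fun v => F u v).card ≤ Δ)
    (h : ℝ) (h0 : 0 < h)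
    (hexp : ∀ X ⊆ S, 2 * X.card ≤ S.card →
      h * X.card ≤ ((X ×ˢ (S \ X)).filter fun p => F p.1 p.2).card) (f : V → ℝ) :
    ∑ u ∈ S, (f u - (∑ v ∈ S, f v) / S.card) ^ 2 ≤
      Δ / h ^ 2 * ∑ p ∈ (S ×ˢ S).filter (fun p => F p.1 p.2), (f p.1 - f p.2) ^ 2 :=
  C.cheeger S F hF Δ hΔ h h0 hexp f

open Classical in
/-- A digraph with outdegrees at most `d` has an independent set of proportion `1/(2d+1)`. -/
theorem indep_set {ι : Type} [Fintype ι] (S : Finset ι) (F : ι → ι → Prop) (d : ℕ)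
    (hd : ∀ i ∈ S, (S.filter fun j => j ≠ i ∧ F i j).card ≤ d) :
    ∃ I ⊆ S, S.card ≤ (2 * d + 1) * I.card ∧ ∀ i ∈ I, ∀ j ∈ I, i ≠ j → ¬ F i j :=
  C.indep_set S F d hd

end RST
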