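import Pool.Agent.Lib.MP_7946c7_pr.B.Avg
import Pool.Agent.Lib.MP_7946c7_pr.B.TraB
import Pool.Agent.Lib.MP_7946c7_pr.G.BasB

/-!
# Stream B: basic facts on `EE`, `PP`, `PT`, the continuous labels and the transfer to bins.
-/

open Finset MeasureTheory

namespace RST

section EE

variable {ι B : Type} [Fintype ι] [Fintype B] {q : B → ℝ}

theorem EE_mono (hq : IsLaw q) {F G : (ι → B) → ℝ} (h : ∀ b, F b ≤ G b) : EE q F ≤ EE q G := by
  exact RST.G.EE_mono hq h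

theorem EE_const (hq : IsLaw q) (a : ℝ) : EE q (fun _ : ι → B => a) = a := by
  exact RST.G.EE_const hq a

theorem EE_add (q : B → ℝ) (F G : (ι → B) → ℝ) : EE q (fun b => F b + G b) = EE q F + EE q G := by
  exact RST.G.EE_add F G

theorem EE_mul_left (q : B → ℝ) (a : ℝ) (F : (ι → B) → ℝ) :
    EE q (fun b => a * F b) = a * EE q F := by
  exact RST.G.EE_mul_left a F

theorem EE_sum (q : B → ℝ) {κ : Type} (s : Finset κ) (F : κ → (ι → B) → ℝ) :
    EE q (fun b => ∑ i ∈ s, F i b) = ∑ i ∈ s, EE q (F i) := by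
  exact RST.G.EE_sum s F

theorem EE_nonneg (hq : IsLaw q) {F : (ι → B) → ℝ} (h : ∀ b, 0 ≤ F b) : 0 ≤ EE q F := by
  exact RST.G.EE_nonneg hq h

theorem PP_nonneg (hq : IsLaw q) (S : Set (ι → B)) : 0 ≤ PP q S := by
  exact RST.G.PP_nonneg hq S

theorem PP_le_one (hq : IsLaw q) (S : Set (ι → B)) : PP q S ≤ 1 := by
  exact RST.G.PP_le_one hq S

theorem PP_mono (hq : IsLaw q) {S T : Set (ι → B)} (h : S ⊆ T) : PP q S ≤ PP q T := by
  exact RST.G.PP_mono hq h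

theorem PP_compl (hq : IsLaw q) (S : Set (ι → B)) : PP q Sᶜ = 1 - PP q S := by
  exact RST.G.PP_compl hq S

theorem PP_union_le (hq : IsLaw q) (S T : Set (ι → B)) : PP q (S ∪ T) ≤ PP q S + PP q T := by
  exact RST.G.PP_union hq S T

theorem PP_exists_le (hq : IsLaw q) {κ : Type} (s : Finset κ) (S : κ → Set (ι → B)) :
    PP q {b | ∃ i ∈ s, b ∈ S i} ≤ ∑ i ∈ s, PP q (S i) := by
  exact RST.G.PP_exists hq s S

/-- Markov inequality. -/
theorem PP_markov (hq : IsLaw q) {F : (ι → B) → ℝ} (h : ∀ b, 0 ≤ F b) {a : ℝ} (ha : 0 < a) :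
    PP q {b | a ≤ F b} ≤ EE q F / a := by
  exact RST.G.markov hq h ha

theorem isLaw_bern {p : ℝ} (h0 : 0 ≤ p) (h1 : p ≤ 1) :
    IsLaw (fun x : Bool => if x then p else 1 - p) := by
  exact RST.G.bern_law h0 h1

end EE

section PT

variable {V : Type} [Fintype V] [Nonempty V] {c : Sym2 V → ℝ}

theorem PT_nonneg (hc : ∀ e, 0 < c e) (S : Set (SimpleGraph V)) : 0 ≤ PT c S := by
  exact RST.B.PT_nonneg hc S

theorem PT_univ (hc : ∀ e, 0 < c e) : PT c (Set.univ : Set (SimpleGraph V)) = 1 := by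
  exact RST.B.PT_univ hc

theorem PT_mono (hc : ∀ e, 0 < c e) {S T : Set (SimpleGraph V)}
    (h : ∀ G : SimpleGraph V, G.IsTree → G ∈ S → G ∈ T) : PT c S ≤ PT c T := by
  exact RST.B.PT_mono hc h

theorem PT_compl (hc : ∀ e, 0 < c e) (S : Set (SimpleGraph V)) : PT c Sᶜ = 1 - PT c S := by
  exact RST.B.PT_compl hc S

theorem PT_union_le (hc : ∀ e, 0 < c e) (S T : Set (SimpleGraph V)) :
    PT c (S ∪ T) ≤ PT c S + PT c T := by
  exact RST.B.PT_union_le hc S T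

theorem PT_exists_le (hc : ∀ e, 0 < c e) {κ : Type} (s : Finset κ)
    (S : κ → Set (SimpleGraph V)) : PT c {T | ∃ i ∈ s, T ∈ S i} ≤ ∑ i ∈ s, PT c (S i) := by
  exact RST.B.PT_exists_le hc s S

/-- The law of the tree does not change if all the conductances are multiplied by a constant. -/
theorem PT_scale (a : ℝ) (ha : 0 < a) (S : Set (SimpleGraph V)) :
    PT (fun e => a * c e) S = PT c S := by
  exact RST.B.PT_scale a ha S

end PT

/-! ## Continuous labels -/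

/-- Transfer to bins: the law of finitely many nested graphs `G(x k)`. -/
theorem transfer (n : ℕ) (hn : 0 < n) (K : ℕ) (x : Fin K → ℝ) (hx : Monotone x)
    (h0 : ∀ k, -1 ≤ x k) (h1 : ∀ k, x k ≤ n - 1) :
    ∃ q : Fin (K + 1) → ℝ, IsLaw q ∧
      (∀ k : Fin K, qs q (lowBins k) = (1 + x k) / n) ∧
      ∀ Φ : Set (Fin K → Fin n → Fin n → Prop),
        MeasurableSet {ω | (fun k => gr (xlab n ω) (x k)) ∈ Φ} ∧
        (labLaw n {ω | (fun k => gr (xlab n ω) (x k)) ∈ Φ}).toReal =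
          PP q {b : Sym2 (Fin n) → Fin (K + 1) |
            (fun k : Fin K => adj (lowBins k) b) ∈ Φ} := by
  exact RST.B.transfer n hn K x hx h0 h1

/-- Averaging. -/
theorem avg_ge (n : ℕ) (hn : 0 < n) (β : ℝ) (S : Set (SimpleGraph (Fin n)))
    (A : Set (Sym2 (Fin n) → ℝ)) (hA : MeasurableSet A) (ε₁ ε₂ : ℝ)
    (h1 : (labLaw n Aᶜ).toReal ≤ ε₁)
    (h2 : ∀ ω ∈ A, (∀ e, 0 ≤ ω e ∧ ω e ≤ 1) →
      1 - ε₂ ≤ PT (fun e => Real.exp (-(β / n) * xlab n ω e)) S) (hε : 0 ≤ ε₂) :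
    1 - ε₁ - ε₂ ≤ avg n β S := by
  exact RST.B.avg_ge n hn β S A hA ε₁ ε₂ h1 h2 hε

end RST
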